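import Pool.Agent.H33.SLC3

set_option autoImplicit false

open Set Filter Topology Cardinal Pool.Agent.H33

namespace Pool.Agent.Results.MP_5a4599_gt.NoZFCExample

/-- every point has a neighbourhood meeting only countably many members of the family -/
def LocallyCountable {X : Type} [TopologicalSpace X] (b : Set (Set X)) : Prop :=
  ∀ x : X, ∃ V ∈ 𝓝 x, {B ∈ b | (B ∩ V).Nonempty}.Countable

/-- `X` has a base that is a countable union of locally countable families -/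
def SigmaLocCountableBase (X : Type) [TopologicalSpace X] : Prop :=
  ∃ b : ℕ → Set (Set X), TopologicalSpace.IsTopologicalBasis (⋃ n, b n) ∧
    ∀ n, LocallyCountable (b n)

/-- every open cover has a point-finite open refinement -/
def Metacompact (X : Type) [TopologicalSpace X] : Prop :=
  ∀ U : Set (Set X), (∀ u ∈ U, IsOpen u) → ⋃₀ U = Set.univ →
    ∃ V : Set (Set X), (∀ v ∈ V, IsOpen v ∧ ∃ u ∈ U, v ⊆ u) ∧ ⋃₀ V = Set.univ ∧
      ∀ x, {v ∈ V | x ∈ v}.Finite

theorem result (h : SLC1.PFA1) (X : Type) [TopologicalSpace X] [T1Space X] (hX : #X ≤ ℵ_ 1)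
    (hb : SigmaLocCountableBase X) : (∀ F : Set X, IsGδ F) ∧ Metacompact X := by
  obtain ⟨b, hb, hl⟩ := hb
  refine ⟨fun F => ?_, fun U h1 h2 => ?_⟩
  · obtain ⟨I, a1, a2, a3⟩ := SLC3.core h hX b hb hl {Set.univ}
      (fun x => ⟨_, rfl, univ_mem⟩) fun x => {_n | x ∈ F}
    have : F = ⋂ n, ⋃ i ∈ {i ∈ I | i.n = n}, i.C := by
      refine (subset_iInter fun n x hx => ?_).antisymm fun z hz => not_not.1 fun e => ?_
      · obtain ⟨i, b1, b2, b3⟩ := a2 x n hx
        exact mem_biUnion (x := i) ⟨b1, b2⟩ b3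
      · refine infinite_univ (((a3 z (by simp [e])).image SLC1.It.n).subset fun n _ => ?_)
        obtain ⟨i, b1, b2⟩ := mem_iUnion₂.1 (mem_iInter.1 hz n)
        exact ⟨i, ⟨b1.1, b2⟩, b1.2⟩
    rw [this]
    exact IsGδ.iInter_of_isOpen fun n => isOpen_biUnion fun i hi => (a1 i hi.1).1
  · obtain ⟨I, a1, a2, a3⟩ := SLC3.core h hX b hb hl U (fun x => by
      obtain ⟨u, a, c⟩ := h2.ge (mem_univ x)
      exact ⟨u, a, (h1 u a).mem_nhds c⟩) fun _ => {0}
    refine ⟨SLC1.It.C '' I, forall_mem_image.2 a1, eq_univ_of_forall fun x => ?_, fun x =>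
      ((a3 x (finite_singleton _)).image SLC1.It.C).subset ?_⟩
    · obtain ⟨i, b1, -, b3⟩ := a2 x 0 rfl
      exact ⟨_, ⟨i, b1, rfl⟩, b3⟩
    · rintro _ ⟨⟨i, b1, rfl⟩, b2⟩
      exact ⟨i, ⟨b1, b2⟩, rfl⟩

end Pool.Agent.Results.MP_5a4599_gt.NoZFCExample
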